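import Pool.Agent.H34.WB.Stm2
import Pool.Agent.H34.WB.Law
import Pool.Agent.H34.WB.Mix

/-!
# Project WB2, module `S_app`: approximation of the low entropy part by sets of words
-/

set_option autoImplicit false

open MeasureTheory Filter Topology Set
open Pool.Agent.Results.MP_07c750_an.WalshBakerQuantumLimits

noncomputable section

namespace Pool.Agent.H10.WB

open Pool.Agent.H34.WB

variable {D : ℕ}

/-- the prefixes of length `j`, `N ≤ j ≤ n`, are big -/
def Fs (μ : Measure (ℤ → Fin D)) (t : ℝ) (N n : ℕ) : Set (ℤ → Fin D) :=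
  {x | ∀ j, j ≤ n → N ≤ j → word j x ∈ big μ t j}

/-- the prefixes of length `j`, `N ≤ j`, are big -/
def Fi (μ : Measure (ℤ → Fin D)) (t : ℝ) (N : ℕ) : Set (ℤ → Fin D) := ⋂ n, Fs μ t N n

/-- all long prefixes are big -/
def Fu (μ : Measure (ℤ → Fin D)) (t : ℝ) : Set (ℤ → Fin D) := ⋃ N, Fi μ t N

open Classical in
/-- the words of length `n` whose prefixes of length `j`, `N ≤ j ≤ n`, are big -/
def Aw (μ : Measure (ℤ → Fin D)) (t : ℝ) (N n : ℕ) : Finset (Fin n → Fin D) :=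
  Finset.univ.filter fun w => ∀ (j : ℕ) (h : j ≤ n), N ≤ j →
    (fun i : Fin j => w (Fin.castLE h i)) ∈ big μ t j

lemma mem_Aw {μ : Measure (ℤ → Fin D)} {t : ℝ} {N n : ℕ} {w : Fin n → Fin D} :
    w ∈ Aw μ t N n ↔ ∀ (j : ℕ) (h : j ≤ n), N ≤ j →
      (fun i : Fin j => w (Fin.castLE h i)) ∈ big μ t j := by
  unfold Aw
  rw [Finset.mem_filter]
  simp

lemma word_Aw {μ : Measure (ℤ → Fin D)} {t : ℝ} {N n : ℕ} :
    {x | word n x ∈ Aw μ t N n} = Fs μ t N n := by
  ext x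
  simp only [Set.mem_ofPred_eq, mem_Aw]
  rfl

lemma card_Aw (μ : Measure (ℤ → Fin D)) [IsProbabilityMeasure μ] {t : ℝ} {N n : ℕ} (h : N ≤ n) :
    ((Aw μ t N n).card : ℝ) ≤ Real.exp (t * n) := by
  refine le_trans ?_ (card_big μ t n)
  have h1 : Aw μ t N n ⊆ big μ t n := by
    intro w hw
    exact mem_Aw.1 hw n le_rfl h
  exact_mod_cast Finset.card_le_card h1

lemma meas_Fs (μ : Measure (ℤ → Fin D)) (t : ℝ) (N n : ℕ) : MeasurableSet (Fs μ t N n) := by
  rw [← word_Aw]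
  exact meas_word n (Set.toFinite _).measurableSet

lemma meas_Fi (μ : Measure (ℤ → Fin D)) (t : ℝ) (N : ℕ) : MeasurableSet (Fi μ t N) :=
  MeasurableSet.iInter fun n => meas_Fs μ t N n

lemma lim_Fs (μ : Measure (ℤ → Fin D)) [IsProbabilityMeasure μ] (t : ℝ) (N : ℕ) :
    Tendsto (fun n => μ.real (Fs μ t N n)) atTop (𝓝 (μ.real (Fi μ t N))) := by
  have h1 : Antitone (Fs μ t N) := fun a b hab x hx j hj hN => hx j (hj.trans hab) hN
  have h2 := tendsto_measure_iInter_atTop (μ := μ) (fun n => (meas_Fs μ t N n).nullMeasurableSet) h1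
    ⟨0, measure_ne_top _ _⟩
  exact (ENNReal.tendsto_toReal (measure_ne_top μ _)).comp h2

lemma mono_Fi (μ : Measure (ℤ → Fin D)) (t : ℝ) : Monotone (Fi μ t) := by
  intro a b hab x hx
  rw [Fi, Set.mem_iInter] at hx ⊢
  intro n j hj hb
  exact hx n j hj (hab.trans hb)

lemma lim_Fi (μ : Measure (ℤ → Fin D)) [IsProbabilityMeasure μ] (t : ℝ) :
    Tendsto (fun N => μ.real (Fi μ t N)) atTop (𝓝 (μ.real (Fu μ t))) :=
  (ENNReal.tendsto_toReal (measure_ne_top μ _)).comp (tendsto_measure_iUnion_atTop (mono_Fi μ t))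

lemma Fi_le (μ : Measure (ℤ → Fin D)) (t : ℝ) (N : ℕ) :
    Fi μ t N ⊆ {x | localEntropy μ x ≤ (t : EReal)} := by
  intro x hx
  rw [Fi, Set.mem_iInter] at hx
  change limsup (fun n : ℕ => ((info μ n x : ℝ) : EReal)) atTop ≤ (t : EReal)
  refine limsup_le_of_le (by isBoundedDefault) ?_
  filter_upwards [eventually_ge_atTop N, eventually_gt_atTop 0] with n hn hn0
  have h1 := mem_big.1 (hx n n le_rfl hn)
  rw [EReal.coe_le_coe_iff]
  unfold info
  have hn0' : (0 : ℝ) < n := by exact_mod_cast hn0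
  rw [div_le_iff₀ hn0']
  have h5 := Real.log_le_log (Real.exp_pos _) h1
  rw [Real.log_exp] at h5
  linarith

lemma le_Fu (μ : Measure (ℤ → Fin D)) [IsProbabilityMeasure μ] {s t : ℝ} (hst : s < t) :
    ∀ᵐ x ∂μ, localEntropy μ x ≤ (s : EReal) → x ∈ Fu μ t := by
  filter_upwards [ae_big μ t] with x hx hs
  obtain ⟨k, hk⟩ := hx (lt_of_le_of_lt hs (by rw [EReal.coe_lt_coe_iff]; exact hst))
  rw [Fu, Set.mem_iUnion]
  refine ⟨k, ?_⟩
  rw [Fi, Set.mem_iInter]
  exact fun n j _ hj => hk j hj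

lemma lim_t (μ : Measure (ℤ → Fin D)) [IsProbabilityMeasure μ] (s : ℝ) :
    Tendsto (fun k : ℕ => μ.real {x | localEntropy μ x ≤ ((s + 1 / ((k : ℝ) + 1) : ℝ) : EReal)}) atTop
      (𝓝 (μ.real {x | localEntropy μ x ≤ (s : EReal)})) := by
  have hm : Measurable (localEntropy μ) := (s_meas D μ).2.2.2
  set E : ℕ → Set (ℤ → Fin D) := fun k =>
    {x | localEntropy μ x ≤ ((s + 1 / ((k : ℝ) + 1) : ℝ) : EReal)} with hE
  have hanti : Antitone E := by
    intro a b hab x hx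
    simp only [hE, Set.mem_ofPred_eq] at hx ⊢
    refine le_trans hx ?_
    rw [EReal.coe_le_coe_iff]
    have : (1 : ℝ) / ((b : ℝ) + 1) ≤ 1 / ((a : ℝ) + 1) := by
      refine div_le_div_of_nonneg_left (by norm_num) (by positivity) ?_
      have : (a : ℝ) ≤ b := by exact_mod_cast hab
      linarith
    linarith
  have hI : (⋂ k, E k) = {x | localEntropy μ x ≤ (s : EReal)} := by
    ext x
    simp only [Set.mem_iInter, hE, Set.mem_ofPred_eq]
    constructor
    · intro h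
      have h1 : Tendsto (fun k : ℕ => ((s + 1 / ((k : ℝ) + 1) : ℝ) : EReal)) atTop
          (𝓝 ((s : ℝ) : EReal)) := by
        refine (continuous_coe_real_ereal.tendsto _).comp ?_
        have h2 := (tendsto_one_div_add_atTop_nhds_zero_nat (𝕜 := ℝ)).const_add s
        simpa using h2
      exact ge_of_tendsto' h1 h
    · intro h k
      refine le_trans h ?_
      rw [EReal.coe_le_coe_iff]
      have : (0 : ℝ) ≤ 1 / ((k : ℝ) + 1) := by positivity
      linarith
  have h2 := tendsto_measure_iInter_atTop (μ := μ) (s := E)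
    (fun k => (show MeasurableSet (E k) from hm measurableSet_Iic).nullMeasurableSet)
    hanti ⟨0, measure_ne_top _ _⟩
  rw [hI] at h2
  exact (ENNReal.tendsto_toReal (measure_ne_top μ _)).comp h2

/-- the approximation -/
lemma approx (μ : Measure (ℤ → Fin D)) [IsProbabilityMeasure μ] {s c : ℝ} (hsc : s < c) {ε : ℝ}
    (hε : 0 < ε) : ∃ (t : ℝ) (N : ℕ), t ≤ c ∧ ∀ᶠ n in atTop,
      μ.real (symmDiff {x | word n x ∈ Aw μ t N n} {x | localEntropy μ x ≤ (s : EReal)}) ≤ ε := by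
  have hm : Measurable (localEntropy μ) := (s_meas D μ).2.2.2
  set E : Set (ℤ → Fin D) := {x | localEntropy μ x ≤ (s : EReal)} with hE
  have hEm : MeasurableSet E := hm measurableSet_Iic
  have h1 : ∀ᶠ k : ℕ in atTop,
      μ.real {x | localEntropy μ x ≤ ((s + 1 / ((k : ℝ) + 1) : ℝ) : EReal)} < μ.real E + ε / 3 :=
    (lim_t μ s).eventually_lt_const (by linarith)
  have h2 : ∀ᶠ k : ℕ in atTop, s + 1 / ((k : ℝ) + 1) < c := by
    have h2 := (tendsto_one_div_add_atTop_nhds_zero_nat (𝕜 := ℝ)).const_add s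
    rw [add_zero] at h2
    exact h2.eventually_lt_const hsc
  obtain ⟨k, hk1, hk2⟩ := (h1.and h2).exists
  set t : ℝ := s + 1 / ((k : ℝ) + 1) with ht
  have hst : s < t := by
    have : (0 : ℝ) < 1 / ((k : ℝ) + 1) := by positivity
    linarith
  have h3 : ∀ᶠ N : ℕ in atTop, μ.real (Fu μ t) - ε / 3 < μ.real (Fi μ t N) :=
    (lim_Fi μ t).eventually_const_lt (by linarith)
  obtain ⟨N, hN⟩ := h3.exists
  refine ⟨t, N, hk2.le, ?_⟩
  have h4 : ∀ᶠ n : ℕ in atTop, μ.real (Fs μ t N n) < μ.real (Fi μ t N) + ε / 3 :=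
    (lim_Fs μ t N).eventually_lt_const (by linarith)
  filter_upwards [h4] with n hn
  rw [word_Aw]
  have hFi : Fi μ t N ⊆ Fs μ t N n := Set.iInter_subset _ n
  have hFim := meas_Fi μ t N
  have d1 : μ.real (Fs μ t N n \ Fi μ t N) ≤ ε / 3 := by
    rw [measureReal_sdiff hFi hFim]
    linarith
  set T : Set (ℤ → Fin D) := {x | localEntropy μ x ≤ (t : EReal)} with hT
  have hET : E ⊆ T := by
    intro x hx
    simp only [hE, hT, Set.mem_ofPred_eq] at hx ⊢
    refine le_trans hx ?_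
    rw [EReal.coe_le_coe_iff]
    exact hst.le
  have d2 : μ.real (T \ E) ≤ ε / 3 := by
    rw [measureReal_sdiff hET hEm]
    linarith
  have d3 : μ.real (Fu μ t \ Fi μ t N) ≤ ε / 3 := by
    have hU : Fi μ t N ⊆ Fu μ t := fun x hx => Set.mem_iUnion.2 ⟨N, hx⟩
    rw [measureReal_sdiff hU hFim]
    linarith
  have d4 : μ.real (E \ Fi μ t N) ≤ μ.real (Fu μ t \ Fi μ t N) := by
    refine ENNReal.toReal_mono (measure_ne_top μ _) (measure_mono_ae ?_)
    filter_upwards [le_Fu μ hst] with x hx hxE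
    exact ⟨hx hxE.1, hxE.2⟩
  have hsub : symmDiff (Fs μ t N n) E ⊆ (Fs μ t N n \ Fi μ t N) ∪ ((T \ E) ∪ (E \ Fi μ t N)) := by
    intro x hx
    rcases hx with ⟨hx1, hx2⟩ | ⟨hx1, hx2⟩
    · by_cases h : x ∈ Fi μ t N
      · exact Or.inr (Or.inl ⟨Fi_le μ t N h, hx2⟩)
      · exact Or.inl ⟨hx1, h⟩
    · exact Or.inr (Or.inr ⟨hx1, fun h => hx2 (hFi h)⟩)
  calc μ.real (symmDiff (Fs μ t N n) E)
      ≤ μ.real ((Fs μ t N n \ Fi μ t N) ∪ ((T \ E) ∪ (E \ Fi μ t N))) := measureReal_mono hsub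
    _ ≤ μ.real (Fs μ t N n \ Fi μ t N) + μ.real ((T \ E) ∪ (E \ Fi μ t N)) :=
        measureReal_union_le _ _
    _ ≤ μ.real (Fs μ t N n \ Fi μ t N) + (μ.real (T \ E) + μ.real (E \ Fi μ t N)) := by
        gcongr
        exact measureReal_union_le _ _
    _ ≤ ε := by linarith

variable [NeZero D]

lemma big_neg {μ : Measure (ℤ → Fin D)} (h : μ.map ngv = μ) {t : ℝ} {n : ℕ} {w : Fin n → Fin D} :
    (fun i => - w i) ∈ big μ t n ↔ w ∈ big μ t n := by
  rw [mem_big, mem_big]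
  have e2 : μ.real (cylinder 0 (fun i => - w i)) = μ.real (cylinder 0 w) := by
    rw [← ngv_cyl, ← map_measureReal_apply meas_ngv (meas_cyl 0 w), h]
  rw [e2]

lemma Aw_neg {μ : Measure (ℤ → Fin D)} (h : μ.map ngv = μ) {t : ℝ} {N n : ℕ}
    {w : Fin n → Fin D} : w ∈ Aw μ t N n ↔ (fun i => - w i) ∈ Aw μ t N n := by
  rw [mem_Aw, mem_Aw]
  refine forall_congr' fun j => forall_congr' fun hj => forall_congr' fun _ => ?_
  exact (big_neg h).symm

omit [NeZero D] in
theorem s_app : S_app := by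
  intro D _ hD μ hμ hngv s hs
  classical
  have hDr : (0 : ℝ) < D := by exact_mod_cast (by omega : 0 < D)
  set c : ℝ := (s + Real.log D / 2) / 2 with hc
  have hsc : s < c := by linarith
  have h2c : 2 * c < Real.log D := by
    have : (2 : ℝ) * c = s + Real.log D / 2 := by rw [hc]; ring
    linarith
  set E : Set (ℤ → Fin D) := {x | localEntropy μ x ≤ (s : EReal)} with hE
  let g : (n : ℕ) → Finset (Fin n → Fin D) → ℝ := fun n A =>
    μ.real (symmDiff {x | word n x ∈ A} E)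
  let S : (n : ℕ) → Finset (Finset (Fin n → Fin D)) := fun n =>
    Finset.univ.filter fun A => (∀ w, w ∈ A ↔ (fun i => - w i) ∈ A) ∧
      (A.card : ℝ) ≤ Real.exp (c * n)
  have hS : ∀ n, (S n).Nonempty := by
    intro n
    refine ⟨∅, ?_⟩
    simp only [S, Finset.mem_filter, Finset.mem_univ, true_and]
    refine ⟨fun w => iff_of_false (Finset.notMem_empty _) (Finset.notMem_empty _), ?_⟩
    rw [Finset.card_empty, Nat.cast_zero]
    exact (Real.exp_pos _).le
  choose A hA hmin using fun n => Finset.exists_min_image (S n) (g n) (hS n)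
  have hA1 : ∀ n w, w ∈ A n ↔ (fun i => - w i) ∈ A n := fun n => (Finset.mem_filter.1 (hA n)).2.1
  have hA2 : ∀ n, ((A n).card : ℝ) ≤ Real.exp (c * n) := fun n =>
    (Finset.mem_filter.1 (hA n)).2.2
  refine ⟨A, hA1, ?_, ?_⟩
  · have h1 : ∀ n, ((A n).card : ℝ) ^ 2 / (D : ℝ) ^ n ≤ Real.exp (2 * c - Real.log D) ^ n := by
      intro n
      rw [div_le_iff₀ (by positivity), ← Real.exp_nat_mul, show (D : ℝ) ^ n =
        Real.exp (n * Real.log D) by
          rw [mul_comm, Real.exp_mul, Real.exp_log hDr, Real.rpow_natCast], ← Real.exp_add]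
      calc ((A n).card : ℝ) ^ 2 ≤ Real.exp (c * n) ^ 2 :=
            pow_le_pow_left₀ (Nat.cast_nonneg _) (hA2 n) 2
        _ = _ := by
            rw [← Real.exp_nat_mul, Nat.cast_ofNat]
            congr 1
            ring
    refine squeeze_zero (fun n => div_nonneg (sq_nonneg _) (pow_nonneg hDr.le _)) h1 ?_
    exact tendsto_pow_atTop_nhds_zero_of_lt_one (Real.exp_pos _).le
      (Real.exp_lt_one_iff.2 (by linarith))
  · rw [Metric.tendsto_atTop]
    intro ε hε
    obtain ⟨t, N, htc, hev⟩ := approx μ hsc (half_pos hε)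
    obtain ⟨n₀, hn₀⟩ := eventually_atTop.1 (hev.and (eventually_ge_atTop N))
    refine ⟨n₀, fun n hn => ?_⟩
    obtain ⟨h1, h2⟩ := hn₀ n hn
    have h3 : Aw μ t N n ∈ S n := by
      simp only [S, Finset.mem_filter, Finset.mem_univ, true_and]
      refine ⟨fun w => Aw_neg hngv, (card_Aw μ h2).trans ?_⟩
      rw [Real.exp_le_exp]
      exact mul_le_mul_of_nonneg_right htc (Nat.cast_nonneg n)
    have h4 : g n (A n) ≤ ε / 2 := (hmin n _ h3).trans h1
    rw [Real.dist_eq, sub_zero, abs_of_nonneg measureReal_nonneg]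
    have h5 : μ.real (symmDiff {x | word n x ∈ A n} E) ≤ ε / 2 := h4
    linarith

end Pool.Agent.H10.WB
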